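import Mathlib
import Pool.Agent.Y503.RB.All

/-!
# The mean curvature of surfaces in the 4-ball, with respect to the hyperbolic metric
-/

set_option autoImplicit false

namespace Pool.Agent.L5helper93.HM

open Pool.Agent.Y503.RB
open scoped ContDiff RealInnerProductSpace ENNReal Topology
open MeasureTheory Set Metric

/-- The Euclidean mean curvature in the direction of the normal vector `n` (half of the trace of the
second fundamental form `II_n` with respect to the first fundamental form). -/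
noncomputable def eucMean (φ : ℂ → E4) (n : E4) (z : ℂ) : ℝ :=
  (sff φ n 1 1 z * fff φ Complex.I Complex.I z - 2 * sff φ n 1 Complex.I z * fff φ 1 Complex.I z +
    sff φ n Complex.I Complex.I z * fff φ 1 1 z) / (2 * fffDet φ z)

/-- The mean curvature with respect to the hyperbolic metric `4 |dx|² / (1 - |x|²)²` in the direction
of the Euclidean unit normal vector `n`. -/
noncomputable def hypMean (φ : ℂ → E4) (n : E4) (z : ℂ) : ℝ :=
  (1 - ‖φ z‖ ^ 2) / 2 * eucMean φ n z - ⟪φ z, n⟫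

/-- The density `Q³ ((H · n - 1)⁺)² dA` with respect to the parameter `z`, where `H` is the
hyperbolic mean curvature vector, `dA = 4 (1 - |p|²)⁻² √det I dz` the hyperbolic area element, and
`Q = (1 - |p|²) / |p + n|²`; here `Q³` is the ratio of the visual measures at infinity seen from the
origin and from `p`, at the end of the geodesic ray which starts at `p` in the direction `n`. -/
noncomputable def upDens (φ : ℂ → E4) (n : E4) (z : ℂ) : ℝ :=
  ((1 - ‖φ z‖ ^ 2) / ‖φ z + n‖ ^ 2) ^ 3 * (max (hypMean φ n z - 1) 0) ^ 2 *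
    (4 / (1 - ‖φ z‖ ^ 2) ^ 2 * √(fffDet φ z))

/-- Integral of the density over the circle of unit normal vectors at `φ z`. (All `L` in the
supremum give the same value.) -/
noncomputable def upAt (φ : ℂ → E4) (z : ℂ) : ℝ≥0∞ :=
  ⨆ (L : ℂ →ₗᵢ[ℝ] E4) (_ : ∀ w v : ℂ, ⟪L w, d1 φ v z⟫ = 0),
    ∫⁻ θ in Ico 0 (2 * Real.pi), ENNReal.ofReal (upDens φ (L ⟨Real.cos θ, Real.sin θ⟩) z)

/-- The upward mean curvature energy of `F`: infimum over all countable families of parametrised
pieces of `F` which cover the part of `F` in the open ball. -/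
noncomputable def upEnergy (F : Set E4) : ℝ≥0∞ :=
  ⨅ (φ : ℕ → ℂ → E4) (U : ℕ → Set ℂ) (A : ℕ → Set ℂ)
    (_ : (∀ i, Patch (φ i) (U i) ∧ φ i '' U i ⊆ F ∧ MeasurableSet (A i) ∧ A i ⊆ U i) ∧
      F ∩ ball 0 1 ⊆ ⋃ i, φ i '' A i),
    ∑' i, ∫⁻ z in A i, upAt (φ i) z

/-- The hyperbolic mean curvature vector of `F` has length at most one. -/
def HypMeanLeOne (F : Set E4) : Prop := ∀ (φ : ℂ → E4) (U : Set ℂ), Patch φ U → φ '' U ⊆ F →
  ∀ z ∈ U, ∀ n : E4, ‖n‖ = 1 → (∀ v : ℂ, ⟪n, d1 φ v z⟫ = 0) → hypMean φ n z ≤ 1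

/-- The Euclidean mean curvature vector of `F` has length at most one. -/
def EucMeanLeOne (F : Set E4) : Prop := ∀ (φ : ℂ → E4) (U : Set ℂ), Patch φ U → φ '' U ⊆ F →
  ∀ z ∈ U, ∀ n : E4, ‖n‖ = 1 → (∀ v : ℂ, ⟪n, d1 φ v z⟫ = 0) → eucMean φ n z ≤ 1

/-! ### Algebra -/

/-- Positive definite forms in the plane: `4 det X det Y ≤ (tr)²`. -/
theorem amgm {x u y a b c : ℝ} (hx : 0 < x) (hX : 0 < x * y - u ^ 2) (ha : 0 < a)
    (hY : 0 < a * c - b ^ 2) : 0 < x * c - 2 * u * b + y * a ∧
    4 * (x * y - u ^ 2) * (a * c - b ^ 2) ≤ (x * c - 2 * u * b + y * a) ^ 2 := by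
  have hc : 0 < c := by
    by_contra h
    push Not at h
    nlinarith [sq_nonneg b, mul_nonneg ha.le (neg_nonneg.2 h)]
  constructor
  · have h1 : 0 < x * (x * c - 2 * u * b + y * a) := by
      have e : x * (x * c - 2 * u * b + y * a) = (x ^ 2 * c - 2 * x * u * b + u ^ 2 * a) +
          (x * y - u ^ 2) * a := by ring
      have h2 : 0 ≤ x ^ 2 * c - 2 * x * u * b + u ^ 2 * a := by
        have h3 : 0 ≤ c * (x ^ 2 * c - 2 * x * u * b + u ^ 2 * a) := by
          have e3 : c * (x ^ 2 * c - 2 * x * u * b + u ^ 2 * a) =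
              (x * c - u * b) ^ 2 + u ^ 2 * (a * c - b ^ 2) := by ring
          rw [e3]; positivity
        exact nonneg_of_mul_nonneg_right h3 hc
      rw [e]
      have := mul_pos hX ha
      linarith
    exact pos_of_mul_pos_right h1 hx.le
  · have h1 : 0 ≤ a * ((x * c - 2 * u * b + y * a) ^ 2 - 4 * (x * y - u ^ 2) * (a * c - b ^ 2)) := by
      have e : a * ((x * c - 2 * u * b + y * a) ^ 2 - 4 * (x * y - u ^ 2) * (a * c - b ^ 2)) =
          a * (x * c - y * a) ^ 2 + 4 * b * (x * c - y * a) * (u * a - x * b) +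
          4 * c * (u * a - x * b) ^ 2 := by ring
      have h2 : 0 ≤ a * (a * (x * c - y * a) ^ 2 + 4 * b * (x * c - y * a) * (u * a - x * b) +
          4 * c * (u * a - x * b) ^ 2) := by
        have e2 : a * (a * (x * c - y * a) ^ 2 + 4 * b * (x * c - y * a) * (u * a - x * b) +
          4 * c * (u * a - x * b) ^ 2) = (a * (x * c - y * a) + 2 * b * (u * a - x * b)) ^ 2 +
          4 * (a * c - b ^ 2) * (u * a - x * b) ^ 2 := by ring
        rw [e2]; positivity
      rw [e]
      exact nonneg_of_mul_nonneg_right h2 ha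
    have := nonneg_of_mul_nonneg_right h1 ha
    linarith

/-! ### The pointwise inequality -/

variable {φ : ℂ → E4} {U : Set ℂ} {z : ℂ} {n : E4}

theorem fffDet_pos (h : Patch φ U) (hz : z ∈ U) : 0 < fff φ 1 1 z ∧ 0 < fffDet φ z := by
  have hinj := h.imm z hz
  have h1 : fderiv ℝ φ z 1 ≠ 0 := by
    intro h0
    have := hinj (h0.trans (map_zero (fderiv ℝ φ z)).symm)
    exact one_ne_zero this
  constructor
  · exact real_inner_self_pos.2 h1
  · unfold fffDet fff d1
    set a := fderiv ℝ φ z 1 with ha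
    set b := fderiv ℝ φ z Complex.I with hb
    have h2 : ⟪a, b⟫ ^ 2 < ⟪a, a⟫ * ⟪b, b⟫ := by
      have h3 : 0 < ⟪a, a⟫ := real_inner_self_pos.2 h1
      have h4 : b - (⟪a, b⟫ / ⟪a, a⟫) • a ≠ 0 := by
        generalize ⟪a, b⟫ / ⟪a, a⟫ = r
        intro h0
        have h5 : fderiv ℝ φ z (Complex.I - (r : ℝ) • (1 : ℂ)) = 0 := by
          rw [map_sub, map_smul, ← ha, ← hb]
          exact h0
        have h6 := hinj (h5.trans (map_zero (fderiv ℝ φ z)).symm)
        have h7 := congrArg Complex.im h6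
        simp at h7
      have h5 := real_inner_self_pos.2 h4
      have e : ⟪b - (⟪a, b⟫ / ⟪a, a⟫) • a, b - (⟪a, b⟫ / ⟪a, a⟫) • a⟫ =
          ⟪b, b⟫ - ⟪a, b⟫ ^ 2 / ⟪a, a⟫ := by
        simp only [inner_sub_left, inner_sub_right, real_inner_smul_left, real_inner_smul_right,
          real_inner_comm a b]
        field_simp
        ring
      rw [e, sub_pos, div_lt_iff₀ h3] at h5
      linarith
    nlinarith

theorem unit_bound {p n : E4} (hp : ‖p‖ < 1) (hn : ‖n‖ = 1) : 0 < 1 + ⟪p, n⟫ := by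
  have := abs_real_inner_le_norm p n
  rw [hn, mul_one] at this
  have h2 := (abs_le.1 this).1
  linarith

/-- Where the surface is inside of the horosphere, its mean curvature is greater than one. -/
theorem inner_bound (h : Patch φ U) (hz : z ∈ U) (hn : ‖n‖ = 1) (hI : Inner φ n z) :
    1 < hypMean φ n z ∧ excDet φ n z / fffDet φ z ≤
      ((hypMean φ n z - 1) / (1 + ⟪φ z, n⟫)) ^ 2 := by
  obtain ⟨hE, hD⟩ := fffDet_pos h hz
  have hp := h.inside z hz
  have hs : 0 < 1 - ‖φ z‖ ^ 2 := by nlinarith [norm_nonneg (φ z)]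
  have ht := unit_bound hp hn
  have hr : 0 < rad (φ z) n := by unfold rad; positivity
  obtain ⟨hI1, hI2⟩ := hI
  have key := amgm (x := exc φ n 1 1 z) (u := exc φ n 1 Complex.I z)
    (y := exc φ n Complex.I Complex.I z) (a := fff φ 1 1 z) (b := fff φ 1 Complex.I z)
    (c := fff φ Complex.I Complex.I z) hI1 hI2 hE hD
  have e1 : exc φ n 1 1 z * fff φ Complex.I Complex.I z - 2 * exc φ n 1 Complex.I z *
      fff φ 1 Complex.I z + exc φ n Complex.I Complex.I z * fff φ 1 1 z =
      2 * fffDet φ z * ((hypMean φ n z - 1) / (1 + ⟪φ z, n⟫)) := by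
    unfold hypMean eucMean exc rad
    have hD' : fffDet φ z ≠ 0 := hD.ne'
    have ht' : 1 + ⟪φ z, n⟫ ≠ 0 := ht.ne'
    field_simp
    unfold fffDet
    ring
  rw [e1] at key
  constructor
  · have h1 := key.1
    have h2 : 0 < (hypMean φ n z - 1) / (1 + ⟪φ z, n⟫) :=
      pos_of_mul_pos_right h1 (by positivity)
    have h3 := (div_pos_iff_of_pos_right ht).1 h2
    linarith
  · have h1 := key.2
    have h2 : 4 * excDet φ n z * fffDet φ z ≤
        (2 * fffDet φ z * ((hypMean φ n z - 1) / (1 + ⟪φ z, n⟫))) ^ 2 := h1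
    rw [div_le_iff₀ hD]
    have h3 : 4 * fffDet φ z * (excDet φ n z) ≤ 4 * fffDet φ z *
        (((hypMean φ n z - 1) / (1 + ⟪φ z, n⟫)) ^ 2 * fffDet φ z) := by nlinarith
    exact le_of_mul_le_mul_left h3 (by positivity)

theorem norm_add_sq' {p n : E4} (hn : ‖n‖ = 1) : ‖p + n‖ ^ 2 = 1 + 2 * ⟪p, n⟫ + ‖p‖ ^ 2 := by
  rw [norm_add_sq_real, hn]
  ring

/-- The density of the horospherical curvature is at most that of the upward energy. -/
theorem dens_le (h : Patch φ U) (hz : z ∈ U) (hn : ‖n‖ = 1) : dens φ n z ≤ upDens φ n z := by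
  obtain ⟨hE, hD⟩ := fffDet_pos h hz
  have hp := h.inside z hz
  have hs : 0 < 1 - ‖φ z‖ ^ 2 := by nlinarith [norm_nonneg (φ z)]
  have ht := unit_bound hp hn
  by_cases hI : Inner φ n z
  · rw [dens, if_pos hI]
    obtain ⟨h1, h2⟩ := inner_bound h hz hn hI
    have hsq : 0 < √(fffDet φ z) := Real.sqrt_pos.2 hD
    have hpn : 0 < ‖φ z + n‖ ^ 2 := by
      rw [norm_add_sq' hn]
      have := abs_real_inner_le_norm (φ z) n
      rw [hn, mul_one] at this
      have h3 := (abs_le.1 this).1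
      nlinarith
    have hm : max (hypMean φ n z - 1) 0 = hypMean φ n z - 1 := max_eq_left (by linarith)
    unfold dens0 upDens
    rw [hm, abs_of_pos hI.2]
    have e1 : 1 - rad (φ z) n = ‖φ z + n‖ ^ 2 / (2 * (1 + ⟪φ z, n⟫)) := by
      rw [norm_add_sq' hn]
      unfold rad
      field_simp
      ring
    have hr : rad (φ z) n = (1 - ‖φ z‖ ^ 2) / (2 * (1 + ⟪φ z, n⟫)) := rfl
    have h4 : excDet φ n z / √(fffDet φ z) ≤
        ((hypMean φ n z - 1) / (1 + ⟪φ z, n⟫)) ^ 2 * √(fffDet φ z) := by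
      rw [div_le_iff₀ hsq, mul_assoc, Real.mul_self_sqrt hD.le, ← div_le_iff₀ hD]
      exact h2
    have h5 : 0 < rad (φ z) n / (1 - rad (φ z) n) ^ 3 := by
      rw [e1, hr]; positivity
    calc rad (φ z) n / (1 - rad (φ z) n) ^ 3 * excDet φ n z / √(fffDet φ z)
        = rad (φ z) n / (1 - rad (φ z) n) ^ 3 * (excDet φ n z / √(fffDet φ z)) := by ring
      _ ≤ rad (φ z) n / (1 - rad (φ z) n) ^ 3 *
          (((hypMean φ n z - 1) / (1 + ⟪φ z, n⟫)) ^ 2 * √(fffDet φ z)) :=
          mul_le_mul_of_nonneg_left h4 h5.le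
      _ = _ := by
          rw [e1, hr]
          have hpn' : ‖φ z + n‖ ≠ 0 := fun h0 => by rw [h0] at hpn; simp at hpn
          field_simp
          ring
  · rw [dens, if_neg hI]
    unfold upDens
    positivity

theorem curvAt_le (h : Patch φ U) (hz : z ∈ U) : curvAt φ z ≤ upAt φ z := by
  unfold curvAt upAt
  refine iSup_mono fun L => iSup_mono fun hL => lintegral_mono fun θ => ?_
  refine ENNReal.ofReal_le_ofReal (dens_le h hz ?_)
  rw [LinearIsometry.norm_map]
  have : (⟨Real.cos θ, Real.sin θ⟩ : ℂ) = Complex.exp (θ * Complex.I) := by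
    apply Complex.ext
    · rw [Complex.exp_ofReal_mul_I_re]
    · rw [Complex.exp_ofReal_mul_I_im]
  rw [this, Complex.norm_exp_ofReal_mul_I]

theorem totalCurv_le (F : Set E4) : totalCurv F ≤ upEnergy F := by
  unfold totalCurv upEnergy
  refine iInf_mono fun φ => iInf_mono fun U => iInf_mono fun A => iInf_mono fun hA => ?_
  refine ENNReal.tsum_le_tsum fun i => ?_
  obtain ⟨h1, h2, h3, h4⟩ := hA.1 i
  exact setLIntegral_mono' h3 fun z hz => curvAt_le h1 (h4 hz)

theorem upDens_zero (h : hypMean φ n z ≤ 1) : upDens φ n z = 0 := by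
  unfold upDens
  rw [max_eq_right (by linarith)]
  ring

theorem upEnergy_zero {F : Set E4} (hF : PSurf F) (h : HypMeanLeOne F) : upEnergy F = 0 := by
  obtain ⟨φ, U, V, h1, h2⟩ := Pool.Agent.Y487.RB.lp F hF
  have hsub : ∀ i, φ i '' U i ⊆ F := fun i => by
    rw [← (h1 i).2.2.2]; exact inter_subset_left
  refine le_antisymm ?_ bot_le
  unfold upEnergy
  refine iInf_le_of_le φ (iInf_le_of_le U (iInf_le_of_le U (iInf_le_of_le
    ⟨fun i => ⟨(h1 i).2.1, hsub i, (h1 i).2.1.isOpen.measurableSet, Subset.rfl⟩, h2⟩ ?_)))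
  have h3 : ∀ i, ∫⁻ z in U i, upAt (φ i) z = 0 := by
    intro i
    have hm : MeasurableSet (U i) := (h1 i).2.1.isOpen.measurableSet
    rw [setLIntegral_congr_fun hm (g := fun _ => 0) (fun z hz => ?_), lintegral_zero]
    unfold upAt
    refine le_antisymm (iSup_le fun L => iSup_le fun hL => ?_) bot_le
    have h4 : ∀ θ : ℝ, ENNReal.ofReal (upDens (φ i) (L ⟨Real.cos θ, Real.sin θ⟩) z) = 0 := by
      intro θ
      rw [upDens_zero, ENNReal.ofReal_zero]
      refine h (φ i) (U i) (h1 i).2.1 (hsub i) z hz _ ?_ fun v => hL _ v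
      rw [LinearIsometry.norm_map]
      have : (⟨Real.cos θ, Real.sin θ⟩ : ℂ) = Complex.exp (θ * Complex.I) := by
        apply Complex.ext
        · rw [Complex.exp_ofReal_mul_I_re]
        · rw [Complex.exp_ofReal_mul_I_im]
      rw [this, Complex.norm_exp_ofReal_mul_I]
    simp only [h4, lintegral_zero]
    exact le_rfl
  rw [tsum_congr h3, tsum_zero]

theorem hyp_of_euc {F : Set E4} (h : EucMeanLeOne F) : HypMeanLeOne F := by
  intro φ U hP hsub z hz n hn hno
  have h1 := h φ U hP hsub z hz n hn hno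
  have hp := hP.inside z hz
  have h2 := abs_real_inner_le_norm (φ z) n
  rw [hn, mul_one] at h2
  have h3 := (abs_le.1 h2).1
  have hs : 0 < 1 - ‖φ z‖ ^ 2 := by nlinarith [norm_nonneg (φ z)]
  unfold hypMean
  nlinarith [sq_nonneg (1 - ‖φ z‖)]

end Pool.Agent.L5helper93.HM
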